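import Mathlib

namespace Pool.Agent.Results.MP_ca5fbf_co.Fails

noncomputable def r3 (m : ℕ) : ℕ :=
  sSup {k | ∃ S : Finset ℕ, S ⊆ Finset.Icc 1 m ∧
    (∀ a d, 1 ≤ d → ¬ (a ∈ S ∧ a + d ∈ S ∧ a + 2 * d ∈ S)) ∧ S.card = k}

noncomputable def A (n : ℕ) : ℤ := (n : ℤ) - r3 ((n + 2) / 3)

noncomputable def B (n : ℕ) : ℤ :=
  (n : ℤ) - ((Finset.range ((n + 1) / 2 + 1)).sup
    (fun k => r3 ((k + 1) / 2) + r3 (((n + 1) / 2 - k + 1) / 2)) : ℕ)

lemma r3_le (m : ℕ) : r3 m ≤ m := by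
  apply csSup_le'
  rintro k ⟨S, h, _, rfl⟩
  simpa using Finset.card_le_card h

lemma roth_le (m : ℕ) : rothNumberNat m ≤ r3 m := by
  have h := addRothNumber_Ico 1 (m + 1)
  obtain ⟨S, h1, h2, h3⟩ := addRothNumber_spec (Finset.Ico 1 (m + 1))
  refine le_csSup ⟨m, ?_⟩ ⟨S, h1, ?_, by rw [h2, h]; rfl⟩
  · rintro k ⟨S, h, _, rfl⟩
    simpa using Finset.card_le_card h
  · rintro a d hd ⟨x, y, z⟩
    have := h3 x y z (by ring)
    omega

lemma bound (H : ∀ n, 1 ≤ n → B n ≤ A n) (N : ℕ) : (r3 N : ℝ) ≤ 2 * (N : ℝ) ^ (4 / 5 : ℝ) := by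
  induction N using Nat.strong_induction_on with
  | _ N ih =>
    by_cases hN : N < 25
    · have h1 : (r3 N : ℝ) ≤ N := by exact_mod_cast r3_le N
      have h2 : (N : ℝ) ^ (1 / 5 : ℝ) ≤ 2 := by
        have : (N : ℝ) ≤ 2 ^ (5 : ℕ) := by
          have : (N : ℝ) < 25 := by exact_mod_cast hN
          linarith
        calc (N : ℝ) ^ (1 / 5 : ℝ) ≤ ((2 : ℝ) ^ (5 : ℕ)) ^ (1 / 5 : ℝ) :=
              Real.rpow_le_rpow (by positivity) this (by norm_num)
          _ = 2 := by
              rw [← Real.rpow_natCast, ← Real.rpow_mul (by norm_num)]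
              norm_num
      have h3 : (N : ℝ) = (N : ℝ) ^ (1 / 5 : ℝ) * (N : ℝ) ^ (4 / 5 : ℝ) := by
        rw [← Real.rpow_add' (by positivity) (by norm_num)]
        norm_num
      calc (r3 N : ℝ) ≤ N := h1
        _ = _ := h3
        _ ≤ _ := mul_le_mul_of_nonneg_right h2 (by positivity)
    · have h := H (3 * N) (by omega)
      unfold A B at h
      rw [show (3 * N + 2) / 3 = N by omega] at h
      obtain ⟨k, hx, e⟩ := Finset.exists_mem_eq_sup (Finset.range ((3 * N + 1) / 2 + 1))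
        (by simp) (fun k => r3 ((k + 1) / 2) + r3 (((3 * N + 1) / 2 - k + 1) / 2))
      rw [e] at h
      rw [Finset.mem_range] at hx
      generalize ha : (k + 1) / 2 = a at h
      generalize hb : ((3 * N + 1) / 2 - k + 1) / 2 = b at h
      have hab : 5 * (a + b) ≤ 4 * N := by omega
      have h1 : (r3 N : ℝ) ≤ r3 a + r3 b := by
        have : r3 N ≤ r3 a + r3 b := by omega
        exact_mod_cast this
      have h2 := ih a (by omega)
      have h3 := ih b (by omega)
      have h4 := (Real.concaveOn_rpow (p := 4 / 5) (by norm_num) (by norm_num)).2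
        (Set.mem_Ici.mpr (Nat.cast_nonneg a)) (Set.mem_Ici.mpr (Nat.cast_nonneg b))
        (show (0 : ℝ) ≤ 1 / 2 by norm_num) (show (0 : ℝ) ≤ 1 / 2 by norm_num) (by norm_num)
      simp only [smul_eq_mul] at h4
      have h5 : (1 / 2 * (a : ℝ) + 1 / 2 * b) ^ (4 / 5 : ℝ) ≤ (2 / 5 * (N : ℝ)) ^ (4 / 5 : ℝ) := by
        apply Real.rpow_le_rpow (by positivity) _ (by norm_num)
        have : (5 : ℝ) * (a + b) ≤ 4 * N := by exact_mod_cast hab
        linarith
      rw [Real.mul_rpow (by norm_num) (by positivity)] at h5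
      have h6 : (2 / 5 : ℝ) ^ (4 / 5 : ℝ) ≤ 1 / 2 := by
        apply le_of_pow_le_pow_left₀ (n := 5) (by norm_num) (by norm_num)
        rw [← Real.rpow_natCast, ← Real.rpow_mul (by norm_num)]
        norm_num
      have h7 := mul_le_mul_of_nonneg_right h6
        (show (0 : ℝ) ≤ (N : ℝ) ^ (4 / 5 : ℝ) by positivity)
      linarith

theorem result : ¬ ∀ n : ℕ, 1 ≤ n → B n ≤ A n := by
  intro H
  obtain ⟨N, hN⟩ := exists_nat_ge (Real.exp 900)
  have h0 : (0 : ℝ) < N := lt_of_lt_of_le (Real.exp_pos _) hN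
  have h1 := bound H N
  have h2 : (rothNumberNat N : ℝ) ≤ r3 N := by exact_mod_cast roth_le N
  have h3 := Behrend.roth_lower_bound (N := N)
  have hL : 900 ≤ Real.log N := (Real.le_log_iff_exp_le h0).mpr hN
  have h4 := Real.log_le_log (by positivity) (h3.trans (h2.trans h1))
  rw [Real.log_mul h0.ne' (Real.exp_pos _).ne', Real.log_exp,
    Real.log_mul (by norm_num) (by positivity), Real.log_rpow h0] at h4
  have h5 : Real.sqrt (Real.log N) ≤ Real.log N / 30 := by
    rw [Real.sqrt_le_iff]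
    constructor
    · positivity
    · nlinarith
  have h6 : Real.log 2 ≤ 1 := by
    have := Real.log_le_sub_one_of_pos (show (0 : ℝ) < 2 by norm_num)
    linarith
  linarith

end Pool.Agent.Results.MP_ca5fbf_co.Fails
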